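import Pool.Agent.E8helper31.SX.Main

/-!
Let `C` be the smallest class of groups that contains the trivial group and is closed under
isomorphism, extensions with amenable quotient, amalgamated free products of arbitrary families over
a common amenable subgroup, and directed unions. If `N` is a normal subgroup of `G` with `G ⧸ N` in
`C`, and `N` is residually (solvable-by-finite), for example residually finite, then `G` is sofic.
The subgroup `N` can be infinitely generated. More generally it suffices that for every `g` in `N`
other than `1` there is a normal subgroup `V` of `G` in `N` not containing `g` such that `N ⧸ V` is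
amenable or residually (solvable-by-finite).

On the way it is proved (known: Elek-Szabo, Paunescu) that amalgamated free products of sofic groups
over a common amenable subgroup are sofic, by a random ordering argument in place of quasi-tilings.
-/

set_option autoImplicit false

namespace Pool.Agent.E8helper31.Variants.ResFiniteByTowersH31

open Pool.Agent.E8helper31.SX Pool.Agent.H21R2

universe u

theorem result {G : Type u} [Group G] (N : Subgroup G) [N.Normal] (hΓ : Tower (G ⧸ N))
    (hN : ∀ g ∈ N, g ≠ 1 → ∃ (V : Subgroup G) (_ : V.Normal), V ≤ N ∧ g ∉ V ∧
      (Amenable (N ⧸ V.subgroupOf N) ∨ ResVirtSolv (N ⧸ V.subgroupOf N))) :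
    IsSofic G :=
  sofic_main N hΓ hN

end Pool.Agent.E8helper31.Variants.ResFiniteByTowersH31
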